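import Pool.Agent.H37QT.Law

/-!
# Zeros near the central point, analytic ranks and ranks in families of quadratic twists

`E_d : y² = x³ + a d² x + b d³`, `d` squarefree (positive or negative), are the quadratic twists of
`E : y² = x³ + a x + b`; the theorem holds, without any hypothesis, for all `E` with `j`-invariant `0` or
`1728` and for all quadratic twists of `X₀(11)` and `X₀(14)` (`Fam`). For `0 ≤ ρ ≤ 1/8` let `n_d(ρ)` be the
number of zeros of `L(E_d, s)`, with multiplicities, with `|s - 1| ≤ ρ`, so that `n_d(0)` is the analytic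
rank, and let `R_d(ρ) = rank E_d(ℚ) + n_d(ρ)`. Then, uniformly in `ρ`,

* `∑_{|d| ≤ X} exp(c (R_d(ρ) - κ ρ log X)) ≤ C X (log X)^A`;
* for all `k`, `B` and for every set `S` of squarefree `d`, `|d| ≤ X`,
  `∑_{d ∈ S} R_d(ρ)^k ≤ C (|S| + X / (log X)^B) (1 + log log X + ρ log X)^k`;
* `∑_{r ≥ R} N_r(E, X) ≤ C X (log X)^A exp(-c R)` for the numbers `N_r(E, X)` of the problem.

So the analytic rank and the rank are `O(log log X)` on average over every set `S` of at least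
`X / (log X)^B` twists, and for almost all `d` the number of zeros in the disc of radius
`ρ ≥ (log log X) / log X` is at most of its true order of magnitude `ρ log X`.

The mean value theorems (a large sieve inequality with a loss of a power of `log X` only for all the twists
of a newform, and the mollifier) are those of the project QT of the starting files, where the case `ρ = 0`
of the first two bounds is proved as `TwistLaw` (in no hand-in); the zeros in discs are new here.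
-/

set_option autoImplicit false

namespace Pool.Agent.Results.MP_03e5d0_nt.LowLyingZeros

open Pool.Agent.Y19.QT Pool.Agent.H37QT

theorem tail {a b : ℤ} {F : ℤ → ℂ → ℂ} (hfin : ∀ (d : ℤ) (ρ : ℝ), Squarefree d → ρ ≤ 1 / 8 →
      zeros (F d) ρ ≠ ⊤)
    (h : ∃ (C c κ : ℝ) (A : ℕ), 0 < c ∧ ∀ (X : ℕ) (ρ : ℝ), 3 ≤ X → 0 ≤ ρ → ρ ≤ 1 / 8 →
      ∑ d ∈ sqf X, Real.exp (c * (rz (a * d ^ 2) (b * d ^ 3) (F d) ρ - κ * (ρ * Real.log X))) ≤
        C * X * Real.log X ^ A) :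
    ∃ (C c : ℝ) (A : ℕ), 0 < c ∧ ∀ (X : ℝ) (R : ℕ), 3 ≤ X →
      (({d : ℤ | Squarefree d ∧ |(d : ℝ)| < X ∧ (R : ℕ∞) ≤ analyticOrderAt (F d) 1}.ncard : ℕ) : ℝ) ≤
        C * X * Real.log X ^ A * Real.exp (-(c * R)) := by
  classical
  obtain ⟨C, c, κ, A, hc, h⟩ := h
  refine ⟨|C|, c, A, hc, fun X R hX => ?_⟩
  set n : ℕ := ⌊X⌋₊ with hn
  have hn3 : 3 ≤ n := Nat.le_floor (by exact_mod_cast hX)
  have hnX : (n : ℝ) ≤ X := Nat.floor_le (by linarith)
  have h1 := h n 0 hn3 le_rfl (by norm_num)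
  have hl : 0 ≤ Real.log n := Real.log_natCast_nonneg n
  have hn0 : (0 : ℝ) < n := by exact_mod_cast (by omega : 0 < n)
  have hlX : Real.log n ≤ Real.log X := Real.log_le_log hn0 hnX
  set S : Finset ℤ := (sqf n).filter (fun d => (R : ℕ∞) ≤ analyticOrderAt (F d) 1) with hS
  have hset : {d : ℤ | Squarefree d ∧ |(d : ℝ)| < X ∧ (R : ℕ∞) ≤ analyticOrderAt (F d) 1} ⊆
      (S : Set ℤ) := by
    rintro d ⟨h2, h3, h4⟩
    rw [Finset.mem_coe, hS, Finset.mem_filter, mem_sqf]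
    refine ⟨⟨?_, h2⟩, h4⟩
    have h5 : ((d.natAbs : ℕ) : ℝ) ≤ X := by
      rw [Nat.cast_natAbs]
      push_cast
      exact h3.le
    have h6 : d.natAbs ≤ n := Nat.le_floor h5
    rw [Int.abs_eq_natAbs]
    exact_mod_cast h6
  have hcard : (({d : ℤ | Squarefree d ∧ |(d : ℝ)| < X ∧
      (R : ℕ∞) ≤ analyticOrderAt (F d) 1}.ncard : ℕ) : ℝ) ≤ (S.card : ℝ) := by
    have h2 := Set.ncard_le_ncard hset (Finset.finite_toSet S)
    rw [Set.ncard_coe_finset] at h2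
    exact_mod_cast h2
  have hpt : ∀ d ∈ S, Real.exp (c * R) ≤
      Real.exp (c * (rz (a * d ^ 2) (b * d ^ 3) (F d) 0 - κ * (0 * Real.log n))) := by
    intro d hd
    obtain ⟨h2, h3⟩ := Finset.mem_filter.1 hd
    apply Real.exp_le_exp.2
    apply mul_le_mul_of_nonneg_left _ hc.le
    rw [zero_mul, mul_zero, sub_zero]
    unfold rz
    have h4 := hfin d 0 (mem_sqf.1 h2).2 (by norm_num)
    rw [zeros_zero] at h4 ⊢
    have h5 : ((R : ℕ) : ENNReal) ≤ ((analyticOrderAt (F d) 1 : ℕ∞) : ENNReal) := by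
      have h6 := ENat.toENNReal_mono h3
      simpa using h6
    have h6 := ENNReal.toReal_mono h4 h5
    rw [ENNReal.toReal_natCast] at h6
    have h7 : (0 : ℝ) ≤ (Module.finrank ℤ (EQ (a * d ^ 2) (b * d ^ 3)) : ℝ) := Nat.cast_nonneg _
    linarith
  have h2 : (S.card : ℝ) * Real.exp (c * R) ≤ |C| * X * Real.log X ^ A := by
    calc (S.card : ℝ) * Real.exp (c * R) = ∑ d ∈ S, Real.exp (c * R) := by
          rw [Finset.sum_const, nsmul_eq_mul]
      _ ≤ ∑ d ∈ S, Real.exp (c * (rz (a * d ^ 2) (b * d ^ 3) (F d) 0 - κ * (0 * Real.log n))) :=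
          Finset.sum_le_sum hpt
      _ ≤ ∑ d ∈ sqf n,
          Real.exp (c * (rz (a * d ^ 2) (b * d ^ 3) (F d) 0 - κ * (0 * Real.log n))) :=
          Finset.sum_le_sum_of_subset_of_nonneg (Finset.filter_subset _ _)
            fun _ _ _ => (Real.exp_pos _).le
      _ ≤ C * n * Real.log n ^ A := h1
      _ ≤ |C| * n * Real.log n ^ A := by
          have := le_abs_self C
          gcongr
      _ ≤ |C| * X * Real.log X ^ A := by gcongr
  refine hcard.trans ?_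
  rw [Real.exp_neg, ← div_eq_mul_inv, le_div_iff₀ (Real.exp_pos _)]
  exact h2

/-- **Zeros near the central point, analytic ranks and ranks of quadratic twists.** -/
theorem result (a b : ℤ) (hab : Fam a b) :
    (∀ d : ℤ, Squarefree d → Module.Finite ℤ (EQ (a * d ^ 2) (b * d ^ 3)) ∧
      ∃! F : ℂ → ℂ, IsLFun (a * d ^ 2) (b * d ^ 3) F) ∧
    ∀ F : ℤ → ℂ → ℂ, (∀ d : ℤ, Squarefree d → IsLFun (a * d ^ 2) (b * d ^ 3) (F d)) →
      (∀ (d : ℤ) (ρ : ℝ), Squarefree d → ρ ≤ 1 / 8 → zeros (F d) ρ ≠ ⊤) ∧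
      (∃ (C c κ : ℝ) (A : ℕ), 0 < c ∧ ∀ (X : ℕ) (ρ : ℝ), 3 ≤ X → 0 ≤ ρ → ρ ≤ 1 / 8 →
        ∑ d ∈ sqf X, Real.exp (c * (rz (a * d ^ 2) (b * d ^ 3) (F d) ρ - κ * (ρ * Real.log X))) ≤
          C * X * Real.log X ^ A) ∧
      (∀ k B : ℕ, ∃ C : ℝ, ∀ (X : ℕ) (ρ : ℝ) (S : Finset ℤ), 3 ≤ X → 0 ≤ ρ → ρ ≤ 1 / 8 →
        S ⊆ sqf X → ∑ d ∈ S, rz (a * d ^ 2) (b * d ^ 3) (F d) ρ ^ k ≤
          C * (S.card + X / Real.log X ^ B) * (1 + Real.log (Real.log X) + ρ * Real.log X) ^ k) ∧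
      ∃ (C c : ℝ) (A : ℕ), 0 < c ∧ ∀ (X : ℝ) (R : ℕ), 3 ≤ X →
        (({d : ℤ | Squarefree d ∧ |(d : ℝ)| < X ∧
          (R : ℕ∞) ≤ analyticOrderAt (F d) 1}.ncard : ℕ) : ℝ) ≤
          C * X * Real.log X ^ A * Real.exp (-(c * R)) := by
  obtain ⟨h1, h2⟩ := law_fam hab
  refine ⟨h1, fun F hF => ?_⟩
  obtain ⟨h3, h4, h5⟩ := h2 F hF
  exact ⟨h3, h4, h5, tail h3 h4⟩

end Pool.Agent.Results.MP_03e5d0_nt.LowLyingZeros
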